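import Pool.Agent.V9h68.Inv

/-!
# Quasiminimality of the complex numbers for dominated systems in several unknowns

The starting results on this problem treat sets of complex numbers which are defined with
quantifiers over ONE unknown in a system of exponential equations, or with one equation in several
unknowns. Here we treat quantifiers over `n` unknowns `x = (x₁, …, x_n)`, for arbitrary `n`, with
arbitrary systems of equations and inequations

`(s, x₁, …, x_n, e^x₁, …, e^x_n) ∈ E`,

where `E` is definable in the field of complex numbers and DOMINATED: for all `s` and `x` there are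
only finitely many `y` with `(s, x, y) ∈ E`. The parameters `s` are exponential terms (with iterated
exponentials) or zeros of exponential equations in one complex number `t`. For example, for every
`n` and all polynomials `P₁, …, P_n, Q`, the set of all complex numbers `t` such that the system

`P_i(t, e^t, e^e^t, x₁, …, x_n, e^x_i) = 0` and `P_i(t, e^t, e^e^t, x₁, …, x_n, ·)` is not the zero
polynomial (`i = 1, …, n`), `Q(t, x, e^x) ≠ 0`

has a solution (or: has at least `κ` solutions) is countable or cocountable. Also equations in one
unknown `z` with iterated exponentials, like `P(t, z, e^z, e^(e^z), …, exp^k(z)) = 0` of arbitrary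
height `k`, are dominated systems with the unknowns `z, e^z, …, exp^(k-1)(z)` (one requires that
the last exponential is algebraic over the others), and so are for example all equations
`exp^k(z) = z + t`.

The set of these conditions is closed under countable Boolean combinations, substitution of
exponential terms, and quantifiers over one unknown which are guarded by an exponential equation
`P(s, x, e^x) = 0`; we may also add all conditions whose traces on analytic curves are countable or
cocountable, as in the starting results.

Proof. Let `K` be a countable algebraically closed field with the following property: for all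
complex numbers `x₁, …, x_n` which are linearly independent over `ℚ` modulo `K`, the transcendence
degree of `x, e^x` over `K` is at least `n + 1`. By the theorem of Ax and a construction with
derivations every countable set is contained in such a field (`Pool.Agent.V9h68.exists_GF`). Let
`M_t` be the closure of `K` and `t` under exponential equations in one unknown. If
`u = (u₁, …, u_d)` is linearly independent over `ℚ` modulo `M_t`, and the `e^u_j` are algebraic over
`M_t(u)`, then `u` is algebraically independent over `M_t` (`Pool.Agent.V9h68.indep_of_dom`): each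
element of `M_t` lies in a finite tuple with few relations. If `x` is a solution of a dominated system
over `M_t`, one can write `x = A u + m` with such a `u`, `m` in `M_t` and an integral matrix
`A`. By the starting result `IsomorphicClosures` there is for generic `t, t'` an isomorphism of `M_t`
and `M_t'`. It moves the solutions in `M_t` to solutions in `M_t'`. For the other solutions one uses
the theorem of Brownawell and Masser: there is a Zariski dense set of points `u'` such that
`(u', e^u')` satisfies the transported relations of `(u, e^u)` (`Pool.Agent.V9h68.transfer`), and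
`A u' + m'` is a solution for `t'` (`Pool.Agent.V9h68.dom_inf`).
-/

set_option autoImplicit false

namespace Pool.Agent.Results.MP_a12702_lc.DominatedSystems

open Set Cardinal

/-- The subsets of `ℂ^n` which are definable in the field of complex numbers by first-order
formulas with parameters. -/
inductive FieldDef : (n : ℕ) → Set (Fin n → ℂ) → Prop
  /-- zero sets of complex polynomials -/
  | zero (n : ℕ) (p : MvPolynomial (Fin n) ℂ) : FieldDef n {v | MvPolynomial.eval v p = 0}
  /-- complements -/
  | compl (n : ℕ) (X : Set (Fin n → ℂ)) : FieldDef n X → FieldDef n Xᶜ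
  /-- unions -/
  | union (n : ℕ) (X Y : Set (Fin n → ℂ)) : FieldDef n X → FieldDef n Y → FieldDef n (X ∪ Y)
  /-- projections, that is existential quantifiers over complex numbers -/
  | proj (n : ℕ) (X : Set (Fin (n + 1) → ℂ)) : FieldDef (n + 1) X →
      FieldDef n {v | ∃ z : ℂ, (Fin.snoc (α := fun _ => ℂ) v z : Fin (n + 1) → ℂ) ∈ X}

/-- Exponential terms in `n` variables. -/
inductive ExpTerm (n : ℕ) : ((Fin n → ℂ) → ℂ) → Prop
  | const (c : ℂ) : ExpTerm n fun _ => c
  | coord (i : Fin n) : ExpTerm n fun s => s i
  | add (f g : (Fin n → ℂ) → ℂ) : ExpTerm n f → ExpTerm n g → ExpTerm n fun s => f s + g s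
  | mul (f g : (Fin n → ℂ) → ℂ) : ExpTerm n f → ExpTerm n g → ExpTerm n fun s => f s * g s
  | exp (f : (Fin n → ℂ) → ℂ) : ExpTerm n f → ExpTerm n fun s => Complex.exp (f s)

/-- Closure conditions on families `𝒟 m` of subsets of `ℂ^m`. -/
structure Closed (𝒟 : (m : ℕ) → Set (Set (Fin m → ℂ))) : Prop where
  /-- all sets whose traces on analytic curves are countable or cocountable, for example the
  zero sets of arbitrary entire functions -/
  base : ∀ (m : ℕ) (X : Set (Fin m → ℂ)), (∀ U : Set ℂ, IsOpen U → IsPreconnected U →
    ∀ γ : ℂ → (Fin m → ℂ), AnalyticOnNhd ℂ γ U →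
      {t | t ∈ U ∧ γ t ∈ X}.Countable ∨ {t | t ∈ U ∧ γ t ∉ X}.Countable) → X ∈ 𝒟 m
  /-- complements -/
  compl : ∀ (m : ℕ) (X : Set (Fin m → ℂ)), X ∈ 𝒟 m → Xᶜ ∈ 𝒟 m
  /-- countable unions -/
  iUnion : ∀ (m : ℕ) (X : ℕ → Set (Fin m → ℂ)), (∀ i, X i ∈ 𝒟 m) → (⋃ i, X i) ∈ 𝒟 m
  /-- substitution of exponential terms -/
  preimage : ∀ (m n : ℕ) (h : Fin m → (Fin n → ℂ) → ℂ), (∀ i, ExpTerm n (h i)) →
    ∀ X ∈ 𝒟 m, {s | (fun i => h i s) ∈ X} ∈ 𝒟 n
  /-- the guarded quantifier over one unknown: there are at least `κ` numbers `x` with
  `P(s, x, e^x) = 0` and `X(s, x)`, where the left side does not vanish for all `x`, and the set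
  `X` of the family is arbitrary -/
  guard : ∀ (m : ℕ) (P : MvPolynomial (Fin m ⊕ Fin 2) ℂ), ∀ X ∈ 𝒟 (m + 1), ∀ κ : Cardinal.{0},
    {s | κ ≤ #({x : ℂ | (∃ x', MvPolynomial.eval (Sum.elim s ![x', Complex.exp x']) P ≠ 0) ∧
      MvPolynomial.eval (Sum.elim s ![x, Complex.exp x]) P = 0 ∧
      (Fin.snoc (α := fun _ => ℂ) s x : Fin (m + 1) → ℂ) ∈ X} : Set ℂ)} ∈ 𝒟 m
  /-- the quantifier over `n` unknowns in a dominated system: there are at least `κ` tuples
  `x = (x₁, …, x_n)` with `(s, x, e^x) ∈ E`, where `E` is definable in the field of complex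
  numbers, and for all `s` and `x` there are only finitely many `y` with `(s, x, y) ∈ E` -/
  dominated : ∀ (m n : ℕ) (E : Set (Fin (m + (n + n)) → ℂ)), FieldDef (m + (n + n)) E →
    (∀ (s : Fin m → ℂ) (x : Fin n → ℂ), {y : Fin n → ℂ |
      (Fin.append s (Fin.append x y) : Fin (m + (n + n)) → ℂ) ∈ E}.Finite) → ∀ κ : Cardinal.{0},
    {s | κ ≤ #({x : Fin n → ℂ | (Fin.append s (Fin.append x fun i => Complex.exp (x i)) :
      Fin (m + (n + n)) → ℂ) ∈ E} : Set (Fin n → ℂ))} ∈ 𝒟 m

theorem con_of_fieldDef {n : ℕ} {X : Set (Fin n → ℂ)} (h : FieldDef n X) :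
    Pool.Agent.V9h68.Con n X := by
  induction h with
  | zero n p => exact Pool.Agent.V9h68.Con.zero p
  | compl n X _ ih => exact ih.compl
  | union n X Y _ _ ih1 ih2 => exact ih1.union ih2
  | proj n X _ ih => exact ih.proj

theorem expTerm {n : ℕ} {f : (Fin n → ℂ) → ℂ} (h : ExpTerm n f) :
    Pool.Agent.V9h68.ExpTerm n f := by
  induction h with
  | const c => exact .const c
  | coord i => exact .coord i
  | add f g _ _ hf hg => exact .add f g hf hg
  | mul f g _ _ hf hg => exact .mul f g hf hg
  | exp f _ hf => exact .exp f hf

theorem closed_inv : Closed (fun m => {X | Pool.Agent.V9h68.Inv m X}) where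
  base := fun _ _ hX => Pool.Agent.V9h68.Inv.base hX
  compl := fun _ _ hX => Pool.Agent.V9h68.Inv.compl hX
  iUnion := fun _ _ hX => Pool.Agent.V9h68.Inv.iUnion hX
  preimage := fun _ _ _ hh _ hX => Pool.Agent.V9h68.Inv.preimage (fun i => expTerm (hh i)) hX
  guard := by
    intro m P X hX κ
    have h1 := Pool.Agent.V9h68.Inv.guard (MvPolynomial.rename (Sum.map id Sum.inr) P) hX κ
    have h2 : ∀ (s : Fin m → ℂ) (x : ℂ),
        Pool.Agent.V9h68.Gf (MvPolynomial.rename (Sum.map id Sum.inr) P) s x =
          MvPolynomial.eval (Sum.elim s ![x, Complex.exp x]) P := by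
      intro s x
      rw [Pool.Agent.V9h68.Gf, MvPolynomial.eval_rename]
      congr 2
      funext a
      rcases a with a | a
      · rfl
      · rfl
    simp only [Pool.Agent.TH735.FO.IsZero, h2, and_assoc] at h1
    exact h1
  dominated := fun _ _ _ hE hfin κ =>
    Pool.Agent.V9h68.Inv.dominated (con_of_fieldDef hE) hfin κ

/-- Every set of complex numbers in the least closed family is countable or cocountable. -/
theorem result : ∀ X : Set ℂ,
    (∀ 𝒟 : (m : ℕ) → Set (Set (Fin m → ℂ)), Closed 𝒟 → {v : Fin 1 → ℂ | v 0 ∈ X} ∈ 𝒟 1) →
    X.Countable ∨ Xᶜ.Countable := by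
  intro X hX
  have h1 : Pool.Agent.V9h68.Inv 1 {v : Fin 1 → ℂ | v 0 ∈ X} := hX _ closed_inv
  exact h1.qm

end Pool.Agent.Results.MP_a12702_lc.DominatedSystems
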