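import Pool.Agent.V9h68.Pl15
import Pool.Agent.V9h68.Pl16

/-!
# Quantifiers over systems in exponentials of linear forms in general position

We prove that all sets of complex numbers which are definable, with parameters, by infinitary
formulas built from the following operations are countable or cocountable:

* the sets which are definable in the field of complex numbers;
* countable conjunctions and disjunctions, negations, the substitution of exponential terms;
* the quantifiers over the solutions `p ∈ ℂ^d` of systems `(s, p, e^c₁(p), …, e^c_n(p)) ∈ E`, where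
  `E` is definable in the field of complex numbers and `c₁, …, c_n` are `n ≥ d` linear forms on
  `ℂ^d` in general position (almost all tuples of forms are). There are no restrictions on `E` if
  `d ≤ 2`, so that `there are z, w with φ(s, z, w, e^c₁(z,w), …, e^c_n(z,w))` is allowed for every
  formula `φ` of the language of fields. For `d > 2` we assume that the fibres of `E` over all
  `(s, p)` have dimension at most `n - d`. If the system has only countably many solutions (which is
  always the case under the latter assumption) the quantifier is allowed with an arbitrary matrix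
  `X(s, p)` of the family;
* the generic quantifiers: there are uncountably many numbers `x` with `X(s, x)`.

Proof. Let `K` be a countable algebraically closed field which is closed under exponentiation and
satisfies the theorem of Ax. We consider isomorphisms between finite tuples `b`, `b'` of complex
numbers which are linearly independent over the rational numbers modulo `K` and have the least
possible transcendence degree over `K` together with their exponentials. By a theorem on the
divisibility of exponentials in function fields (Zilber's thumbtack lemma over `K`) the type of all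
roots of the exponentials is determined at a finite level. The new point is that the isomorphisms
extend to the solutions `p` of systems in linear forms `x = c(p)` (`Pool.Agent.V9h68.Wt.lin`): let
`F` be the algebraic closure of `K(b, e^b)`, let `y` be a basis of `x` modulo the rational linear
combinations of `b` and `K`, and let `e` be the least dimension of an affine space over `F` which
contains `p`. The transcendence degree of `(y, e^y)` over `F` is at most the length of `y`, by
assumption (or, for `d ≤ 2`, by the rank theorem for analytic maps), and it is at least the length of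
`y`, by the choice of `b` and Ax's theorem. For `e ≤ 1` the solution is algebraic or on a curve, which
was treated earlier. For `e ≥ 2` it follows that `y` is generic in an affine space of dimension `e`
over `F`. The direction of this space is in general position, because of the general position of `c`
(`Pool.Agent.V9h68.gp_dir`). By the theorem on linear subspaces in general position
`Pool.Agent.Results.MP_209724_lc.LinearSpacesAtInfinity.result` (a case of the conjecture of Zilber
on exponential-algebraic closedness) the exponential points are dense in the conjugate of the locus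
of `(y / M, e^(y / M))` for all `M > 0` (`Pool.Agent.V9h68.loc_dense_g`). If none of them were
generic, then there would be a nonstandard solution, in an ultrapower of the complex numbers, which
contradicts the theorem of Ax over the ultrapower of `K`.
-/

set_option autoImplicit false

namespace Pool.Agent.Results.MP_a12702_lc.LinearForms

open Set Cardinal MvPolynomial MeasureTheory

/-- The subsets of `ℂ^n` which are definable in the field of complex numbers by first-order
formulas with parameters. -/
inductive FieldDef : (n : ℕ) → Set (Fin n → ℂ) → Prop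
  /-- zero sets of complex polynomials -/
  | zero (n : ℕ) (p : MvPolynomial (Fin n) ℂ) : FieldDef n {v | MvPolynomial.eval v p = 0}
  /-- complements -/
  | compl (n : ℕ) (X : Set (Fin n → ℂ)) : FieldDef n X → FieldDef n Xᶜ
  /-- unions -/
  | union (n : ℕ) (X Y : Set (Fin n → ℂ)) : FieldDef n X → FieldDef n Y → FieldDef n (X ∪ Y)
  /-- projections, that is existential quantifiers over complex numbers -/
  | proj (n : ℕ) (X : Set (Fin (n + 1) → ℂ)) : FieldDef (n + 1) X →
      FieldDef n {v | ∃ z : ℂ, (Fin.snoc (α := fun _ => ℂ) v z : Fin (n + 1) → ℂ) ∈ X}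

/-- Exponential terms in `n` variables. -/
inductive ExpTerm (n : ℕ) : ((Fin n → ℂ) → ℂ) → Prop
  | const (c : ℂ) : ExpTerm n fun _ => c
  | coord (i : Fin n) : ExpTerm n fun s => s i
  | add (f g : (Fin n → ℂ) → ℂ) : ExpTerm n f → ExpTerm n g → ExpTerm n fun s => f s + g s
  | mul (f g : (Fin n → ℂ) → ℂ) : ExpTerm n f → ExpTerm n g → ExpTerm n fun s => f s * g s
  | exp (f : (Fin n → ℂ) → ℂ) : ExpTerm n f → ExpTerm n fun s => Complex.exp (f s)

/-- The `n` linear forms `c_i(p) = ∑ c_il p_l` on `ℂ^d` are in general position: there are no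
relations `∑ g_i c_i = 0` with `g ≠ 0` such that the coordinates of `g` span a space of dimension at
most `d` over the rational numbers, or such that `g` is the sum of a vector `u` of real numbers,
which span a space of dimension at most `2 (d - r)` over the rational numbers, and a complex linear
combination of `r` rational vectors, where `0 ≤ r ≤ d - 2`. -/
structure GenPos {n d : ℕ} (c : Fin n → Fin d → ℂ) : Prop where
  complex : ∀ u : Fin n → ℂ, u ≠ 0 → Module.finrank ℚ (Submodule.span ℚ (range u)) ≤ d →
    ∃ l, ∑ i, u i * c i l ≠ 0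
  real : ∀ r : ℕ, r + 2 ≤ d → ∀ (u : Fin n → ℝ) (R : Fin r → Fin n → ℚ) (μ : Fin r → ℂ),
    Module.finrank ℚ (Submodule.span ℚ (range u)) + 2 * r ≤ 2 * d →
    (fun i => (u i : ℂ) + ∑ j, μ j * (R j i : ℂ)) ≠ 0 →
    ∃ l, ∑ i, ((u i : ℂ) + ∑ j, μ j * (R j i : ℂ)) * c i l ≠ 0

/-- The solutions `p ∈ ℂ^d` of `(s, p, e^c(p)) ∈ E`, where `c` is a tuple of linear forms. -/
def Sol {m d n : ℕ} (c : Fin n → Fin d → ℂ) (E : Set (Fin (m + (d + n)) → ℂ)) (s : Fin m → ℂ) :
    Set (Fin d → ℂ) :=
  {p | (Fin.append s (Fin.append p fun i => Complex.exp (∑ l, c i l * p l)) :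
    Fin (m + (d + n)) → ℂ) ∈ E}

/-- The fibres of `E` over all `(s, p)` have dimension at most `n - d`: any `n - d + 1` of the
coordinates of the points `y` with `(s, p, y) ∈ E` satisfy a nontrivial polynomial relation. -/
def Thin {m d n : ℕ} (E : Set (Fin (m + (d + n)) → ℂ)) : Prop :=
  ∀ (s : Fin m → ℂ) (p : Fin d → ℂ) (J : Finset (Fin n)), J.card + d = n + 1 →
    ∃ g : MvPolynomial (Fin n) ℂ, g ≠ 0 ∧ g.vars ⊆ J ∧ ∀ y : Fin n → ℂ,
      (Fin.append s (Fin.append p y) : Fin (m + (d + n)) → ℂ) ∈ E → eval y g = 0

/-- Closure conditions on families `𝒟 m` of subsets of `ℂ^m`. -/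
structure Closed (𝒟 : (m : ℕ) → Set (Set (Fin m → ℂ))) : Prop where
  /-- the sets which are definable in the field of complex numbers -/
  field : ∀ (m : ℕ) (X : Set (Fin m → ℂ)), FieldDef m X → X ∈ 𝒟 m
  /-- complements -/
  compl : ∀ (m : ℕ) (X : Set (Fin m → ℂ)), X ∈ 𝒟 m → Xᶜ ∈ 𝒟 m
  /-- countable unions -/
  iUnion : ∀ (m : ℕ) (X : ℕ → Set (Fin m → ℂ)), (∀ i, X i ∈ 𝒟 m) → (⋃ i, X i) ∈ 𝒟 m
  /-- substitution of exponential terms -/
  preimage : ∀ (m n : ℕ) (h : Fin m → (Fin n → ℂ) → ℂ), (∀ i, ExpTerm n (h i)) →
    ∀ X ∈ 𝒟 m, {s | (fun i => h i s) ∈ X} ∈ 𝒟 n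
  /-- the quantifiers over the solutions of systems in exponentials of linear forms in general
  position: there are at least `κ` points `p ∈ ℂ^d` with `(s, p, e^c(p)) ∈ E`, where `E` is
  arbitrary if `d ≤ 2` and thin otherwise -/
  forms : ∀ (m d n : ℕ) (c : Fin n → Fin d → ℂ), d ≤ n → GenPos c →
    ∀ E : Set (Fin (m + (d + n)) → ℂ), FieldDef (m + (d + n)) E → (d ≤ 2 ∨ Thin E) →
    ∀ κ : Cardinal.{0}, {s | κ ≤ #(Sol c E s)} ∈ 𝒟 m
  /-- the same quantifiers with an arbitrary matrix `X` of the family, if there are only countably
  many solutions: there are at least `κ` solutions `p` with `X(s, p)` -/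
  bounded : ∀ (m d n : ℕ) (c : Fin n → Fin d → ℂ), d ≤ n → GenPos c →
    ∀ E : Set (Fin (m + (d + n)) → ℂ), FieldDef (m + (d + n)) E → (d ≤ 2 ∨ Thin E) →
    ∀ X ∈ 𝒟 (m + d), ∀ κ : Cardinal.{0},
    {s | κ ≤ #({p : Fin d → ℂ | p ∈ Sol c E s ∧ (Sol c E s).Countable ∧
      (Fin.append s p : Fin (m + d) → ℂ) ∈ X} : Set (Fin d → ℂ))} ∈ 𝒟 m
  /-- the generic quantifiers: there are at least `κ` numbers `x` with `X(s, x)`, for an uncountable
  cardinal `κ` and an arbitrary set `X` of the family -/
  generic : ∀ (m : ℕ), ∀ X ∈ 𝒟 (m + 1), ∀ κ : Cardinal.{0}, ℵ₀ < κ →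
    {s | κ ≤ #({x : ℂ | (Fin.snoc (α := fun _ => ℂ) s x : Fin (m + 1) → ℂ) ∈ X} : Set ℂ)} ∈ 𝒟 m

/-- The sets of the least closed family. -/
def Definable (m : ℕ) (X : Set (Fin m → ℂ)) : Prop :=
  ∀ 𝒟 : (m : ℕ) → Set (Set (Fin m → ℂ)), Closed 𝒟 → X ∈ 𝒟 m

theorem autInv {n : ℕ} {X : Set (Fin n → ℂ)} (h : FieldDef n X) :
    Pool.Agent.V9h68.AutInv n X := by
  induction h with
  | zero n p => exact Pool.Agent.V9h68.AutInv.zero p
  | compl n X _ ih => exact ih.compl
  | union n X Y _ _ ih1 ih2 => exact ih1.union ih2
  | proj n X _ ih => exact ih.proj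

theorem expTerm {n : ℕ} {f : (Fin n → ℂ) → ℂ} (h : ExpTerm n f) :
    Pool.Agent.V9h68.ExpT n f := by
  induction h with
  | const c => exact .const c
  | coord i => exact .coord i
  | add f g _ _ hf hg => exact .add f g hf hg
  | mul f g _ _ hf hg => exact .mul f g hf hg
  | exp f _ hf => exact .exp f hf

theorem genPos {n d : ℕ} {c : Fin n → Fin d → ℂ} : GenPos c ↔ Pool.Agent.V9h68.HG c :=
  ⟨fun h => ⟨h.complex, h.real⟩, fun h => ⟨h.complex, h.real⟩⟩

theorem closed_inv : Closed (fun m => {X | Pool.Agent.V9h68.InvN m X}) where
  field := fun _ _ hX => (autInv hX).invN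
  compl := fun _ _ hX => Pool.Agent.V9h68.InvN.compl hX
  iUnion := fun _ _ hX => Pool.Agent.V9h68.InvN.iUnion hX
  preimage := fun _ _ _ hh _ hX => Pool.Agent.V9h68.InvN.preimage (fun i => expTerm (hh i)) hX
  forms := fun _ _ _ _ hdn hc _ hE hT κ =>
    Pool.Agent.V9h68.InvN.forms (genPos.1 hc) hdn (autInv hE) hT κ
  bounded := fun _ _ _ _ hdn hc _ hE hT _ hX κ =>
    Pool.Agent.V9h68.InvN.formsC (genPos.1 hc) hdn (autInv hE) hT hX κ
  generic := fun _ _ hX _ hκ => Pool.Agent.V9h68.InvN.generic hX hκ

/-- (1) Almost all tuples of linear forms are in general position. (2) Every set of complex numbers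
in the least closed family is countable or cocountable. -/
theorem result :
    (∀ n d : ℕ, ∀ᵐ c : Fin n → Fin d → ℂ, GenPos c) ∧
    ∀ X : Set ℂ, Definable 1 {v : Fin 1 → ℂ | v 0 ∈ X} → X.Countable ∨ Xᶜ.Countable := by
  constructor
  · intro n d
    filter_upwards [Pool.Agent.V9h68.HG.ae n d] with c hc
    exact genPos.2 hc
  · exact fun X hX => Pool.Agent.V9h68.InvN.qm (hX _ closed_inv)

end Pool.Agent.Results.MP_a12702_lc.LinearForms
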