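import Pool.Agent.V9h68.N7

/-!
# Isomorphisms of closures under robust systems, and quasiminimality

For sets `A` and `S` of complex numbers let `ccl A S` be the least set of complex numbers which
contains `A` and `S` and is closed under exponentiation, algebraic numbers, and the solutions
`x₁, …, x_n` of

* dominated systems: `e^x₁, …, e^x_n` are algebraic over the closure and `x₁, …, x_n`;
* systems on curves: `(x₁, …, x_n)` is a nondegenerate solution of a system of `n` equations
  `P_i(x₁, …, x_n, e^x₁, …, e^x_n) = 0` over the closure (a Khovanskii system), and it is on an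
  algebraic curve over the closure;
* robust systems: for a finite set `B` in the closure, the locus `V` of `(x, e^x)` over the
  algebraic closure of `ℚ(B)` has dimension at most `n`, its images of dimension at most `k` under
  the rational homomorphisms to `ℂ^k × (ℂ^*)^k` of rank `k`, `0 < k < n`, are excluded (`V` is
  simple), and the exponential points `(z, e^z)` are dense in all conjugates of `V` and of the
  locus of `(x / M, e^(x / M))` for `M > 0` by field automorphisms over `A` which respect the
  exponential function on `B`.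

By the conjecture of Zilber on exponential-algebraic closedness (EAC) the exponential points are
dense in all free and rotund varieties. It implies that `ccl A S` is the exponential-algebraic
closure of `A ∪ S`, that is, it contains all solutions of Khovanskii systems: if `x` is such a
solution over `C = ccl A S`, then the transcendence degree of `(x, e^x)` over `C` is at most the
dimension over `ℚ` of the span `L` of `x` modulo `C`, and a minimal nonzero subspace of `L` with this
property would be spanned by a robust tuple modulo `C`. The theorem does not assume the conjecture;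
each known case of the conjecture adds something to `ccl`. If the conjecture holds, then the first
part becomes the step in the theorem of Bays and Kirby (EAC implies quasiminimality) which says that
the exponential-algebraic closures of generic numbers are isomorphic.

The first part of the theorem is about generic numbers. The quasiminimality of the complex
exponential field would follow if for every countable (or only finite) set `A` all `t`, `t'` outside
of a countable set were conjugate by an automorphism of the complex exponential field over `A`. We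
prove that they are conjugate by an isomorphism between the exponential fields `ccl A {t}` and
`ccl A {t'}` over `A`. More generally the isomorphism respects countably many given sets of the
family of the second part.

The second part is the quasiminimality of the complex numbers for the sets which are definable by
infinitary formulas, with parameters, which are closed under (arbitrarily nested)

* countable conjunctions and disjunctions, and the substitution of exponential terms;
* all quantifiers, also of infinitary and of higher order logic, which range over the closure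
  `ccl A s` of the free variables `s` and a countable set `A` of parameters;
* the quantifiers over all `x` in `ℂ^n` with `X(s, x)`, if `X` is tame: for all `x` with `X(s, x)` and
  all sets `J` of indices, if there are only countably many `x'` with `X(s, x')` and `x'_j = x_j` for
  `j ∈ J`, then `x` is in the closure of `s` and `(x_j)_{j ∈ J}`;
* the unguarded quantifiers over the solutions `x` of `(s, x, e^x) ∈ E`, where `E` is definable in
  the field of complex numbers, if there are at most two unknowns, or if the system is dominated, or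
  if it is on curves; for example all formulas `∃ x₁ x₂ φ(s, x₁, x₂, e^x₁, e^x₂)`, where `φ` is a
  formula of the language of fields (the set of all `(s, x)` such that `x` is a solution of such a
  system, the system has only countably many solutions, and `X(s, x)`, is tame for an arbitrary
  matrix `X`);
* the generic quantifiers: there are uncountably many numbers `x` with `X(s, x)`, where the matrix
  `X` is arbitrary.

Proof. Let `K` be a countable algebraically closed field which is closed under exponentiation and
satisfies the theorem of Ax. We consider isomorphisms between finite tuples `b`, `b'` of complex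
numbers which are linearly independent over the rational numbers modulo `K` and have the least
possible transcendence degree over `K` together with their exponentials; this number is `p + d` for
a tuple of length `p` over a chain of `d` such fields. By a theorem on the divisibility of
exponentials in function fields (Zilber's thumbtack lemma over `K`, `Pool.Agent.V9h68.kum`) the type
of all roots of the exponentials is determined at a finite level. The main points are that an
isomorphism between `(b, e^b)` and `(b', e^b')` extends to every solution `c` of a dominated system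
over `b` (`Pool.Agent.V9h68.Wt.dom`), of a nondegenerate system on a curve over `b`
(`Pool.Agent.V9h68.Wt.crv`), and of a robust system over `b` (`Pool.Agent.V9h68.Wt.rob`): the
conjugate system has a dense set of solutions, and if none of them were generic, then there would
be a nonstandard solution, in an ultrapower of the complex numbers, which contradicts the theorem of
Ax over the ultrapowers of the fields of the chain (`Pool.Agent.V9h68.gsec_auxd`,
`Pool.Agent.V9h68.gsec_auxc`, `Pool.Agent.V9h68.gsec_auxg`). For dominated systems the solutions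
come from the theorem of Brownawell and Masser. For curves they come from a theorem on the zeros of
exponential polynomials with algebraic exponents (`Pool.Agent.V9h68.zz`, as in the theorem of
Mantova and Masser), which we prove with Puiseux expansions on the exterior of a disk and a
theorem on functions of finite order without zeros. The rank theorem for analytic maps implies that
a countable set of solutions consists of nondegenerate solutions
(`Pool.Agent.V9h68.exists_leaf`). The isomorphisms also extend to generic elements, so that the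
sets of the family are invariant under isomorphisms; the isomorphisms of the closures are
constructed by going back and forth. Finally any two generic numbers `t`, `t'` are conjugate.
-/

set_option autoImplicit false

namespace Pool.Agent.Results.MP_a12702_lc.RobustClosure

open Set Cardinal MvPolynomial

/-- The subsets of `ℂ^n` which are definable in the field of complex numbers by first-order
formulas with parameters. -/
inductive FieldDef : (n : ℕ) → Set (Fin n → ℂ) → Prop
  /-- zero sets of complex polynomials -/
  | zero (n : ℕ) (p : MvPolynomial (Fin n) ℂ) : FieldDef n {v | MvPolynomial.eval v p = 0}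
  /-- complements -/
  | compl (n : ℕ) (X : Set (Fin n → ℂ)) : FieldDef n X → FieldDef n Xᶜ
  /-- unions -/
  | union (n : ℕ) (X Y : Set (Fin n → ℂ)) : FieldDef n X → FieldDef n Y → FieldDef n (X ∪ Y)
  /-- projections, that is existential quantifiers over complex numbers -/
  | proj (n : ℕ) (X : Set (Fin (n + 1) → ℂ)) : FieldDef (n + 1) X →
      FieldDef n {v | ∃ z : ℂ, (Fin.snoc (α := fun _ => ℂ) v z : Fin (n + 1) → ℂ) ∈ X}

/-- Exponential terms in `n` variables. -/
inductive ExpTerm (n : ℕ) : ((Fin n → ℂ) → ℂ) → Prop
  | const (c : ℂ) : ExpTerm n fun _ => c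
  | coord (i : Fin n) : ExpTerm n fun s => s i
  | add (f g : (Fin n → ℂ) → ℂ) : ExpTerm n f → ExpTerm n g → ExpTerm n fun s => f s + g s
  | mul (f g : (Fin n → ℂ) → ℂ) : ExpTerm n f → ExpTerm n g → ExpTerm n fun s => f s * g s
  | exp (f : (Fin n → ℂ) → ℂ) : ExpTerm n f → ExpTerm n fun s => Complex.exp (f s)

/-- The tuple `x = (x₁, …, x_n)` is a nondegenerate solution of a system of `n` equations
`P_i(x₁, …, x_n, e^x₁, …, e^x_n) = 0`, where the `P_i` are polynomials with coefficients in `C`:
the Jacobian determinant of the system does not vanish at `x`. -/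
def NonDeg (C : Set ℂ) {n : ℕ} (x : Fin n → ℂ) : Prop :=
  ∃ P : Fin n → MvPolynomial (Fin n ⊕ Fin n) ℂ, (∀ i α, (P i).coeff α ∈ C) ∧
    (∀ i, eval (Sum.elim x fun i => Complex.exp (x i)) (P i) = 0) ∧
    (Matrix.of fun i j => eval (Sum.elim x fun i => Complex.exp (x i))
      (pderiv (Sum.inl j) (P i) + X (Sum.inr j) * pderiv (Sum.inr j) (P i))).det ≠ 0

/-- The transcendence degree over `ℚ(B)` of the tuple `(u, e^u) = (u₁, …, u_k, e^u₁, …, e^u_k)` is
at most `k`. -/
def Small (B : Set ℂ) {k : ℕ} (u : Fin k → ℂ) : Prop :=
  ∃ y : Fin k → ℂ, ∀ j, IsAlgebraic (Algebra.adjoin ℚ (B ∪ range y)) (u j) ∧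
    IsAlgebraic (Algebra.adjoin ℚ (B ∪ range y)) (Complex.exp (u j))

/-- The point `v` is on the conjugate by the field automorphism `σ` of the locus of `(u, e^u)` over
the algebraic closure of `ℚ(B)`: it is a zero of the conjugates of all polynomials over the
algebraic closure of `ℚ(B)` which vanish at `(u, e^u)`. -/
def Conj (B : Set ℂ) (σ : ℂ ≃+* ℂ) {n : ℕ} (u : Fin n → ℂ) (v : Fin n ⊕ Fin n → ℂ) : Prop :=
  ∀ P : MvPolynomial (Fin n ⊕ Fin n) ℂ, (∀ α, IsAlgebraic (Algebra.adjoin ℚ B) (P.coeff α)) →
    eval (Sum.elim u fun i => Complex.exp (u i)) P = 0 →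
    eval v (MvPolynomial.map (σ : ℂ →+* ℂ) P) = 0

/-- The tuple `x` is robust over `B`, relative to `A`. -/
structure Robust (A B : Set ℂ) {n : ℕ} (x : Fin n → ℂ) : Prop where
  /-- the transcendence degree of `(x, e^x)` over `ℚ(B)` is at most `n` -/
  small : Small B x
  /-- the transcendence degree of `(u, e^u)` over `ℚ(B)` is greater than `k`, for all `k`-tuples `u`
  of linear combinations of `x` with linearly independent rational coefficients, `0 < k < n` -/
  simple : ∀ k : ℕ, 0 < k → k < n → ∀ N : Fin k → Fin n → ℚ, LinearIndependent ℚ N →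
    ¬ Small B (fun j => ∑ i, (N j i : ℂ) * x i)
  /-- the exponential points are dense in the conjugates by `σ` of the locus of
  `(x / M, e^(x / M))`, for all field automorphisms `σ` over `A` which respect the exponential
  function on `B`: every polynomial `H` which vanishes at all exponential points vanishes -/
  dense : ∀ M : ℕ, 0 < M → ∀ σ : ℂ ≃+* ℂ, (∀ a ∈ A, σ a = a) →
    (∀ b ∈ B, σ (Complex.exp b) = Complex.exp (σ b)) →
    ∀ H : MvPolynomial (Fin n ⊕ Fin n) ℂ,
      (∀ z : Fin n → ℂ, Conj B σ (fun i => x i / M) (Sum.elim z fun i => Complex.exp (z i)) →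
        eval (Sum.elim z fun i => Complex.exp (z i)) H = 0) →
      ∀ v : Fin n ⊕ Fin n → ℂ, Conj B σ (fun i => x i / M) v → eval v H = 0

/-- Sets of complex numbers which are closed under exponentiation, algebraic numbers, the
solutions of dominated systems, the nondegenerate solutions which are on an algebraic curve, and
robust tuples. -/
structure CrvClosed (A C : Set ℂ) : Prop where
  exp : ∀ z ∈ C, Complex.exp z ∈ C
  alg : ∀ z : ℂ, IsAlgebraic (Algebra.adjoin ℚ C) z → z ∈ C
  dom : ∀ (n : ℕ) (x : Fin n → ℂ),
    (∀ i, IsAlgebraic (Algebra.adjoin ℚ (C ∪ range x)) (Complex.exp (x i))) → ∀ i, x i ∈ C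
  crv : ∀ (n : ℕ) (x : Fin n → ℂ) (z : ℂ), NonDeg C x →
    (∀ i, IsAlgebraic (Algebra.adjoin ℚ (C ∪ {z})) (x i)) → ∀ i, x i ∈ C
  rob : ∀ (B : Set ℂ) (n : ℕ) (x : Fin n → ℂ), B.Finite → B ⊆ C → Robust A B x → ∀ i, x i ∈ C

/-- The closure of a set `S` of complex numbers over a set `A`. -/
def ccl (A S : Set ℂ) : Set ℂ := {z | ∀ C : Set ℂ, A ∪ S ⊆ C → CrvClosed A C → z ∈ C}

/-- The function `f` is an isomorphism over `A` from the exponential field `ccl A s` to the
exponential field `ccl A s'`, where `s` and `s'` are tuples, which maps `s` to `s'` and respects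
the sets `X_j`. -/
structure IsIso {m : ℕ} (A : Set ℂ) {n : ℕ → ℕ} (X : ∀ j, Set (Fin (n j) → ℂ))
    (s s' : Fin m → ℂ) (f : ℂ → ℂ) : Prop where
  bij : BijOn f (ccl A (range s)) (ccl A (range s'))
  add : ∀ z ∈ ccl A (range s), ∀ w ∈ ccl A (range s), f (z + w) = f z + f w
  mul : ∀ z ∈ ccl A (range s), ∀ w ∈ ccl A (range s), f (z * w) = f z * f w
  exp : ∀ z ∈ ccl A (range s), f (Complex.exp z) = Complex.exp (f z)
  fix : ∀ a ∈ A, f a = a
  map : ∀ i, f (s i) = s' i
  sets : ∀ (j : ℕ) (x : Fin (n j) → ℂ), (∀ i, x i ∈ ccl A (range s)) →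
    (x ∈ X j ↔ (fun i => f (x i)) ∈ X j)

/-- The set `X` is tame over `A`: if `X(s, x)` and there are only countably many `x'` with `X(s, x')`
and `x'_j = x_j` for all `j ∈ J`, then all `x_i` are in the closure of `s` and `(x_j)_{j ∈ J}`. -/
def Tame (A : Set ℂ) {m n : ℕ} (X : Set (Fin (m + n) → ℂ)) : Prop :=
  ∀ (s : Fin m → ℂ) (x : Fin n → ℂ) (J : Set (Fin n)), (Fin.append s x : Fin (m + n) → ℂ) ∈ X →
    {x' : Fin n → ℂ | (Fin.append s x' : Fin (m + n) → ℂ) ∈ X ∧ ∀ j ∈ J, x' j = x j}.Countable →
    ∀ i, x i ∈ ccl A (range s ∪ x '' J)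

/-- The solutions `x` of `(s, x, e^x) ∈ E`. -/
def Sol {m n : ℕ} (E : Set (Fin (m + (n + n)) → ℂ)) (s : Fin m → ℂ) : Set (Fin n → ℂ) :=
  {x | (Fin.append s (Fin.append x fun i => Complex.exp (x i)) : Fin (m + (n + n)) → ℂ) ∈ E}

/-- The systems `(s, x, e^x) ∈ E` with at most two unknowns, or which are dominated (for all `s`
and `x` there are only finitely many `y` with `(s, x, y) ∈ E`), or which are on curves (for some
`i`, all `s` and all `z` there are only finitely many `x` with `x_i = z` and `(s, x, y) ∈ E` for
some `y`). -/
def Guarded (m n : ℕ) (E : Set (Fin (m + (n + n)) → ℂ)) : Prop :=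
  n ≤ 2 ∨
  (∀ (s : Fin m → ℂ) (x : Fin n → ℂ), {y : Fin n → ℂ |
    (Fin.append s (Fin.append x y) : Fin (m + (n + n)) → ℂ) ∈ E}.Finite) ∨
  ∃ i : Fin n, ∀ (s : Fin m → ℂ) (z : ℂ), {x : Fin n → ℂ | x i = z ∧ ∃ y : Fin n → ℂ,
    (Fin.append s (Fin.append x y) : Fin (m + (n + n)) → ℂ) ∈ E}.Finite

/-- Closure conditions on families `𝒟 m` of subsets of `ℂ^m`. -/
structure Closed (𝒟 : (m : ℕ) → Set (Set (Fin m → ℂ))) : Prop where
  /-- the sets which are definable in the field of complex numbers -/
  field : ∀ (m : ℕ) (X : Set (Fin m → ℂ)), FieldDef m X → X ∈ 𝒟 m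
  /-- complements -/
  compl : ∀ (m : ℕ) (X : Set (Fin m → ℂ)), X ∈ 𝒟 m → Xᶜ ∈ 𝒟 m
  /-- countable unions -/
  iUnion : ∀ (m : ℕ) (X : ℕ → Set (Fin m → ℂ)), (∀ i, X i ∈ 𝒟 m) → (⋃ i, X i) ∈ 𝒟 m
  /-- substitution of exponential terms -/
  preimage : ∀ (m n : ℕ) (h : Fin m → (Fin n → ℂ) → ℂ), (∀ i, ExpTerm n (h i)) →
    ∀ X ∈ 𝒟 m, {s | (fun i => h i s) ∈ X} ∈ 𝒟 n
  /-- all properties of `s` which only depend on the isomorphism type over `A ∪ s` of the
  exponential field `ccl A s` with the traces of countably many sets `X_j` of the family, where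
  `A` is countable; among them are all properties which are defined by quantifiers over `ccl A s`
  and over its relations, for example: there are at least `κ` tuples `x = (x₁, …, x_n)` of elements
  of `ccl A s` with `X_0(s, x)` -/
  closure : ∀ (m : ℕ) (A : Set ℂ), A.Countable → ∀ (n : ℕ → ℕ) (X : ∀ j, Set (Fin (n j) → ℂ)),
    (∀ j, X j ∈ 𝒟 (n j)) → ∀ Y : Set (Fin m → ℂ),
    (∀ s s' : Fin m → ℂ, (∃ f : ℂ → ℂ, IsIso A X s s' f) → s ∈ Y → s' ∈ Y) → Y ∈ 𝒟 m
  /-- the quantifiers over tame sets: there are at least `κ` tuples `x = (x₁, …, x_n)` with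
  `X(s, x)`, where the set `X` of the family is tame over a countable set -/
  tame : ∀ (m n : ℕ) (A : Set ℂ), A.Countable → ∀ X ∈ 𝒟 (m + n), Tame A X → ∀ κ : Cardinal.{0},
    {s | κ ≤ #({x : Fin n → ℂ | (Fin.append s x : Fin (m + n) → ℂ) ∈ X} : Set (Fin n → ℂ))} ∈ 𝒟 m
  /-- the unguarded quantifiers: there are at least `κ` tuples `x = (x₁, …, x_n)` with
  `(s, x, e^x) ∈ E`, for example for two unknowns and arbitrary `E` -/
  unguarded : ∀ (m n : ℕ) (E : Set (Fin (m + (n + n)) → ℂ)), FieldDef (m + (n + n)) E →
    Guarded m n E → ∀ κ : Cardinal.{0}, {s | κ ≤ #(Sol E s)} ∈ 𝒟 m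
  /-- the generic quantifiers: there are at least `κ` numbers `x` with `X(s, x)`, for an uncountable
  cardinal `κ` and an arbitrary set `X` of the family -/
  generic : ∀ (m : ℕ), ∀ X ∈ 𝒟 (m + 1), ∀ κ : Cardinal.{0}, ℵ₀ < κ →
    {s | κ ≤ #({x : ℂ | (Fin.snoc (α := fun _ => ℂ) s x : Fin (m + 1) → ℂ) ∈ X} : Set ℂ)} ∈ 𝒟 m

/-- The sets of the least closed family. -/
def Definable (m : ℕ) (X : Set (Fin m → ℂ)) : Prop :=
  ∀ 𝒟 : (m : ℕ) → Set (Set (Fin m → ℂ)), Closed 𝒟 → X ∈ 𝒟 m

theorem autInv {n : ℕ} {X : Set (Fin n → ℂ)} (h : FieldDef n X) :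
    Pool.Agent.V9h68.AutInv n X := by
  induction h with
  | zero n p => exact Pool.Agent.V9h68.AutInv.zero p
  | compl n X _ ih => exact ih.compl
  | union n X Y _ _ ih1 ih2 => exact ih1.union ih2
  | proj n X _ ih => exact ih.proj

theorem expTerm {n : ℕ} {f : (Fin n → ℂ) → ℂ} (h : ExpTerm n f) :
    Pool.Agent.V9h68.ExpT n f := by
  induction h with
  | const c => exact .const c
  | coord i => exact .coord i
  | add f g _ _ hf hg => exact .add f g hf hg
  | mul f g _ _ hf hg => exact .mul f g hf hg
  | exp f _ hf => exact .exp f hf

theorem robust_iff {A B : Set ℂ} {n : ℕ} {x : Fin n → ℂ} :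
    Robust A B x ↔ Pool.Agent.V9h68.Robust A B x :=
  ⟨fun h => ⟨h.small, h.simple, h.dense⟩, fun h => ⟨h.small, h.simple, h.dense⟩⟩

theorem ccl_eq (A S : Set ℂ) : ccl A S = Pool.Agent.V9h68.ccl A S := by
  ext z
  constructor
  · intro h C hBC hC
    exact h C hBC ⟨hC.exp, hC.alg, hC.dom, hC.crv,
      fun B n x hB hB' hR => hC.rob B n x hB hB' (robust_iff.1 hR)⟩
  · intro h C hBC hC
    exact h C hBC ⟨hC.exp, hC.alg, hC.dom, hC.crv,
      fun B n x hB hB' hR => hC.rob B n x hB hB' (robust_iff.2 hR)⟩

theorem tame {A : Set ℂ} {m n : ℕ} {X : Set (Fin (m + n) → ℂ)} (h : Tame A X) :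
    Pool.Agent.V9h68.TameC A X := by
  intro s x J hx hJ i
  rw [← ccl_eq]
  exact h s x J hx hJ i

theorem isIso {m : ℕ} {A : Set ℂ} {n : ℕ → ℕ} {X : ∀ j, Set (Fin (n j) → ℂ)}
    {s s' : Fin m → ℂ} {f : ℂ → ℂ} (h : Pool.Agent.V9h68.CIsoX A X s s' f) :
    IsIso A X s s' f := by
  obtain ⟨⟨h1, h2, h3, h4⟩, h5, h6, h7⟩ := h
  simp only [← ccl_eq] at h1 h2 h3 h4 h7
  exact ⟨h1, h2, h3, h4, h5, h6, h7⟩

theorem closed_inv : Closed (fun m => {X | Pool.Agent.V9h68.InvN m X}) where
  field := fun _ _ hX => (autInv hX).invN
  compl := fun _ _ hX => Pool.Agent.V9h68.InvN.compl hX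
  iUnion := fun _ _ hX => Pool.Agent.V9h68.InvN.iUnion hX
  preimage := fun _ _ _ hh _ hX => Pool.Agent.V9h68.InvN.preimage (fun i => expTerm (hh i)) hX
  closure := fun _ _ hA _ _ hX _ hY => Pool.Agent.V9h68.InvN.iso hA hX
    fun s s' ⟨f, hf⟩ hs => hY s s' ⟨f, isIso hf⟩ hs
  tame := fun _ _ _ hA _ hX hT κ => Pool.Agent.V9h68.InvN.tame hX hA (tame hT) κ
  unguarded := fun _ _ _ hE hG κ => Pool.Agent.V9h68.InvN.unguarded (autInv hE) hG κ
  generic := fun _ _ hX _ hκ => Pool.Agent.V9h68.InvN.generic hX hκ

theorem Definable.inv {m : ℕ} {X : Set (Fin m → ℂ)} (h : Definable m X) :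
    Pool.Agent.V9h68.InvN m X := h _ closed_inv

/-- (1) For every countable set `A` and countably many sets `X_j` of the least closed family there
is a countable set `G` such that for all `t`, `t'` outside of `G` there is an isomorphism over `A`
from the exponential field `ccl A {t}` to the exponential field `ccl A {t'}` which maps `t` to
`t'` and respects the sets `X_j`. (2) Every set of complex numbers in the least closed family is
countable or cocountable. -/
theorem result :
    (∀ A : Set ℂ, A.Countable → ∀ (n : ℕ → ℕ) (X : ∀ j, Set (Fin (n j) → ℂ)),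
      (∀ j, Definable (n j) (X j)) → ∃ G : Set ℂ, G.Countable ∧ ∀ t ∉ G, ∀ t' ∉ G,
        ∃ f : ℂ → ℂ, IsIso A X (fun _ : Fin 1 => t) (fun _ : Fin 1 => t') f) ∧
    ∀ X : Set ℂ, Definable 1 {v : Fin 1 → ℂ | v 0 ∈ X} → X.Countable ∨ Xᶜ.Countable := by
  constructor
  · intro A hA n X hX
    obtain ⟨G, hG, h⟩ := Pool.Agent.V9h68.generic_iso hA fun j => (hX j).inv
    refine ⟨G, hG, fun t ht t' ht' => ?_⟩
    obtain ⟨f, hf⟩ := h t ht t' ht'
    exact ⟨f, isIso hf⟩
  · intro X hX
    exact hX.inv.qm

end Pool.Agent.Results.MP_a12702_lc.RobustClosure
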