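import Pool.Agent.V9h68.TwoM
import Pool.Agent.Y566.GQ.Ex1

/-!
# Quasiminimality of the complex numbers for quantifiers over two exponentials

The starting results treat quantifiers over the complex numbers whose matrix is guarded by one
equation of finite order in the quantified variable (`FiniteOrderGuards`), or consists of one
equation (`OneEquationQuantifiers`), or which are generic (for uncountably many,
`GenericQuantifiers`).

Here we treat UNGUARDED existential and counting quantifiers over TWO exponentials, with arbitrary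
systems of equations and inequations: if `E` is any set which is definable in the field of complex
numbers (with parameters, and with arbitrarily many quantifiers over complex numbers), then the set
of all `s ∈ ℂ^m` for which there is a pair of complex numbers `(x, y)` (or: there are at least `κ`
pairs, for any cardinal `κ`) such that

`(s, x, y, e^x, e^y) ∈ E`

is a Borel set, and its trace on every analytic curve is countable or cocountable. So, for all
entire functions `h₁, …, h_m`, a set of the form `{t | ∃ x y, φ(h₁(t), …, h_m(t), x, y, e^x, e^y)}`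
is countable or cocountable, where `φ` is a first-order formula in the language of fields. The
special case `y = e^x` are the systems of equations and inequations in `x`, `e^x` and `e^(e^x)`.

As these sets are in the class of sets which is considered in the starting results, the quantifiers
can be combined with countable Boolean combinations, preimages under entire maps, guarded
quantifiers with arbitrary matrix, and generic quantifiers with arbitrary matrix. This is the second
part of the theorem.

Proof. Let `M_t` be the closure of `γ(t)` under the solutions of exponential equations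
in one unknown and of certain equations between eigenvalues. By the starting result
`IsomorphicClosures` there is for all generic `t`, `t'` an isomorphism of `M_t` and `M_t'` which
moves `γ(t)` to `γ(t')`. It transports the solutions in `M_t`. Let `(x, y)` be another solution. If `x`
and `y` are algebraically independent over `M_t`, then the system has for the parameter `γ(t')` a
Zariski dense set of solutions by the theorem of Brownawell and Masser on systems of exponential
equations which are dominated by the additive coordinates (`Pool.Agent.V9h68.bm`,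
`Pool.Agent.V9h68.transfer`). Otherwise they lie on an algebraic curve over `M_t`, hence are of the
form `z + c w` and `w` where `w` is an eigenvalue of a matrix of polynomials in `z`
over `M_t`. Then the equations say that the rank of a matrix which is an entire function of
finite order in `z` drops (`Pool.Agent.V9h68.jp_eig`), so that `z` is in `M_t` or the equations
hold for generic `z` (`Pool.Agent.V9h68.sol_curve`).
-/

set_option autoImplicit false

namespace Pool.Agent.Results.MP_a12702_lc.TwoExponentials

open Set Cardinal MeasureTheory Pool.Agent.TH735.QM Pool.Agent.TH735.FO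

/-- The subsets of `ℂ^n` which are definable in the field of complex numbers by first-order
formulas with parameters. -/
inductive FieldDef : (n : ℕ) → Set (Fin n → ℂ) → Prop
  /-- zero sets of complex polynomials -/
  | zero (n : ℕ) (p : MvPolynomial (Fin n) ℂ) : FieldDef n {v | MvPolynomial.eval v p = 0}
  /-- complements -/
  | compl (n : ℕ) (X : Set (Fin n → ℂ)) : FieldDef n X → FieldDef n Xᶜ
  /-- unions -/
  | union (n : ℕ) (X Y : Set (Fin n → ℂ)) : FieldDef n X → FieldDef n Y → FieldDef n (X ∪ Y)
  /-- projections, that is existential quantifiers over complex numbers -/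
  | proj (n : ℕ) (X : Set (Fin (n + 1) → ℂ)) : FieldDef (n + 1) X →
      FieldDef n {v | ∃ z : ℂ, (Fin.snoc (α := fun _ => ℂ) v z : Fin (n + 1) → ℂ) ∈ X}

/-- Closure conditions on families `𝒟 m` of subsets of `ℂ^m`. -/
structure Closed (𝒟 : (m : ℕ) → Set (Set (Fin m → ℂ))) : Prop where
  /-- zero sets of arbitrary entire functions -/
  zero : ∀ (m : ℕ) (f : (Fin m → ℂ) → ℂ), AnalyticOnNhd ℂ f univ → {s | f s = 0} ∈ 𝒟 m
  /-- complements -/
  compl : ∀ (m : ℕ) (X : Set (Fin m → ℂ)), X ∈ 𝒟 m → Xᶜ ∈ 𝒟 m
  /-- countable unions -/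
  iUnion : ∀ (m : ℕ) (X : ℕ → Set (Fin m → ℂ)), (∀ i, X i ∈ 𝒟 m) → (⋃ i, X i) ∈ 𝒟 m
  /-- preimages under entire maps -/
  preimage : ∀ (m n : ℕ) (h : (Fin n → ℂ) → (Fin m → ℂ)), AnalyticOnNhd ℂ h univ →
    ∀ X ∈ 𝒟 m, h ⁻¹' X ∈ 𝒟 n
  /-- the guarded quantifier: there are at least `κ` zeros `x` of `F(s, ·)` with `X(s, x)`, where
  `F(s, ·)` is not identically zero and `F` is entire and of finite order in `x` locally uniformly
  in `s`, and the set `X` of the family is arbitrary -/
  guard : ∀ (m : ℕ) (F : (Fin m → ℂ) → ℂ → ℂ),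
    AnalyticOnNhd ℂ (fun p : (Fin m → ℂ) × ℂ => F p.1 p.2) univ → FiniteOrder F →
    ∀ X ∈ 𝒟 (m + 1), ∀ κ : Cardinal.{0},
    {s | κ ≤ #({x : ℂ | IsZero F s x ∧
      (Fin.snoc (α := fun _ => ℂ) s x : Fin (m + 1) → ℂ) ∈ X} : Set ℂ)} ∈ 𝒟 m
  /-- the generic quantifier: there are at least `κ` numbers `x` with `X(s, x)`, for an
  uncountable cardinal `κ` and an arbitrary set `X` of the family -/
  generic : ∀ (m : ℕ), ∀ X ∈ 𝒟 (m + 1), ∀ κ : Cardinal.{0}, ℵ₀ < κ →
    {s | κ ≤ #({x : ℂ | (Fin.snoc (α := fun _ => ℂ) s x : Fin (m + 1) → ℂ) ∈ X} : Set ℂ)} ∈ 𝒟 m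
  /-- the quantifier over two exponentials: there are at least `κ` pairs `x` of complex numbers
  such that `(s, x.1, x.2, e^x.1, e^x.2) ∈ E`, for an arbitrary cardinal `κ` and an arbitrary set
  `E` which is definable in the field of complex numbers -/
  two : ∀ (m : ℕ) (E : Set (Fin (m + 4) → ℂ)), FieldDef (m + 4) E → ∀ κ : Cardinal.{0},
    {s | κ ≤ #({x : ℂ × ℂ |
      (Fin.append s ![x.1, x.2, Complex.exp x.1, Complex.exp x.2] : Fin (m + 4) → ℂ) ∈ E} :
        Set (ℂ × ℂ))} ∈ 𝒟 m

theorem con_of_fieldDef {n : ℕ} {X : Set (Fin n → ℂ)} (h : FieldDef n X) :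
    Pool.Agent.V9h68.Con n X := by
  induction h with
  | zero n p => exact Pool.Agent.V9h68.Con.zero p
  | compl n X _ ih => exact ih.compl
  | union n X Y _ _ ih1 ih2 => exact ih1.union ih2
  | proj n X _ ih => exact ih.proj

theorem two_BC {m : ℕ} {E : Set (Fin (m + 4) → ℂ)} (hE : FieldDef (m + 4) E)
    (κ : Cardinal.{0}) :
    CQ m {s | κ ≤ #({x : ℂ × ℂ |
      (Fin.append s ![x.1, x.2, Complex.exp x.1, Complex.exp x.2] : Fin (m + 4) → ℂ) ∈ E} :
        Set (ℂ × ℂ))} ∧ MeasurableSet {s | κ ≤ #({x : ℂ × ℂ |
      (Fin.append s ![x.1, x.2, Complex.exp x.1, Complex.exp x.2] : Fin (m + 4) → ℂ) ∈ E} :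
        Set (ℂ × ℂ))} :=
  (con_of_fieldDef hE).two κ

theorem closed_BC : Closed (fun m => {X | CQ m X ∧ MeasurableSet X}) where
  zero := fun _ _ hf => ⟨CQ.zero hf,
    (isClosed_eq (continuousOn_univ.1 hf.continuousOn) continuous_const).measurableSet⟩
  compl := fun _ _ hX => ⟨CQ.compl hX.1, hX.2.compl⟩
  iUnion := fun _ _ hX => ⟨CQ.iUnion fun i => (hX i).1, MeasurableSet.iUnion fun i => (hX i).2⟩
  preimage := fun _ _ _ hh _ hX => ⟨CQ.preimage hX.1 hh,
    (continuousOn_univ.1 hh.continuousOn).measurable hX.2⟩
  guard := by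
    intro m F hF hord X hX κ
    have hR : Rect (fun E : Set (Fin m → ℂ) => CQ m E ∧ MeasurableSet E)
        (fun D : Set (Fin 1 → ℂ) => CQ 1 D ∧ MeasurableSet D)
        (∅ : Set ((Fin m → ℂ) × (Fin 1 → ℂ))) := by
      have h1 : Rect (fun E : Set (Fin m → ℂ) => CQ m E ∧ MeasurableSet E)
          (fun D : Set (Fin 1 → ℂ) => CQ 1 D ∧ MeasurableSet D)
          {p : (Fin m → ℂ) × (Fin 1 → ℂ) | p.1 ∈ (∅ : Set _)} :=
        Rect.left ∅ ⟨by
          intro U _ _ γ _
          left
          simp, MeasurableSet.empty⟩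
      simpa using h1
    have h0 : {s | κ ≤ #({x : ℂ | IsZero F s x ∧
        (Fin.snoc (α := fun _ => ℂ) s x : Fin (m + 1) → ℂ) ∈ X} : Set ℂ)} =
        {s | κ ≤ #({x : ℂ | (IsZero F s x ∧
          (Fin.snoc (α := fun _ => ℂ) s x : Fin (m + 1) → ℂ) ∈ X) ∨
          (¬ IsZero F s x ∧ (s, fun _ => x) ∈ (∅ : Set ((Fin m → ℂ) × (Fin 1 → ℂ))))} :
            Set ℂ)} := by
      simp only [Set.mem_empty_iff_false, and_false, or_false]
    rw [h0]
    exact ⟨CQ.guard hF hord hX.1 (fun E hE => hE.1) (fun D hD => hD.1) hR κ,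
      Pool.Agent.Y566.GQ.meas_guard hF hX.2 (fun E hE => hE.2) (fun D hD => hD) hR κ⟩
  generic := fun _ _ hX _ hκ => Pool.Agent.Y566.GQ.CQ_card hX.1 hX.2 hκ
  two := fun _ _ hE κ => two_BC hE κ

/-- (1) All sets of the least closed family are Borel sets, and their traces on analytic curves are
countable or cocountable. In particular this holds for the set of all `s ∈ ℂ^m` for which there is a
pair `(x, y)` with `(s, x, y, e^x, e^y) ∈ E`, for all sets `E` which are definable in the field of
complex numbers. (2) Every set of complex numbers in the least closed family is countable or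
cocountable. -/
theorem result :
    (∀ (m : ℕ) (X : Set (Fin m → ℂ)),
      (∀ 𝒟 : (m : ℕ) → Set (Set (Fin m → ℂ)), Closed 𝒟 → X ∈ 𝒟 m) →
      MeasurableSet X ∧ ∀ U : Set ℂ, IsOpen U → IsPreconnected U →
        ∀ γ : ℂ → (Fin m → ℂ), AnalyticOnNhd ℂ γ U →
          {t | t ∈ U ∧ γ t ∈ X}.Countable ∨ {t | t ∈ U ∧ γ t ∉ X}.Countable) ∧
    ∀ X : Set ℂ,
      (∀ 𝒟 : (m : ℕ) → Set (Set (Fin m → ℂ)), Closed 𝒟 → {v : Fin 1 → ℂ | v 0 ∈ X} ∈ 𝒟 1) →
      X.Countable ∨ Xᶜ.Countable := by
  refine ⟨?_, ?_⟩
  · intro m X hX
    have h1 : CQ m X ∧ MeasurableSet X := hX _ closed_BC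
    exact ⟨h1.2, h1.1⟩
  · intro X hX
    have h1 : CQ 1 {v : Fin 1 → ℂ | v 0 ∈ X} ∧ MeasurableSet {v : Fin 1 → ℂ | v 0 ∈ X} :=
      hX _ closed_BC
    exact h1.1.qm

end Pool.Agent.Results.MP_a12702_lc.TwoExponentials
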